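import Pool.Agent.H.MP_94ed3e_ag.A

set_option autoImplicit false
open Pool.Agent.H.MP_411355_ag

namespace Pool.Agent.Results.MP_94ed3e_ag.FatPoint

universe u

theorem result (k : Type u) [Field k] : ∃ J : Ideal (MvPolynomial (Fin 3) (DualNumber k)),
    (∀ (T : Type u) [CommRing T] [Algebra k T], Set.BijOn
      (fun φ : DualNumber k →ₐ[k] T => J.map (MvPolynomial.map φ.toRingHom)) Set.univ
      (Hilb ![((1 : ℤ), (0 : ℤ)), (1, 1), (0, 1)]
        (fun a : ℤ × ℤ => if a = (1, 1) then 2 else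
          if a ∈ ({(0, 0), (0, 1), (0, 2), (0, 3), (1, 0), (2, 1), (1, 2), (1, 3), (2, 2), (2, 3)} : Finset (ℤ × ℤ))
          then 1 else 0) T)) ∧
    IsLocalRing (DualNumber k) ∧ IsArtinianRing (DualNumber k) ∧ ¬ IsField (DualNumber k) := by
  obtain ⟨J, hJ⟩ := Pool.Agent.H.MP_94ed3e_ag.main1 k
  haveI : Module.Finite k (DualNumber k) := inferInstanceAs (Module.Finite k (k × k))
  refine ⟨J, hJ, inferInstance, IsArtinianRing.of_finite k _, fun h => ?_⟩
  obtain ⟨b, hb⟩ := h.mul_inv_cancel (a := DualNumber.eps) fun e => by simpa using congrArg TrivSqZeroExt.snd e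
  simpa using congrArg TrivSqZeroExt.fst hb

end Pool.Agent.Results.MP_94ed3e_ag.FatPoint
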